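import Mathlib

/-!
# A toric Landau-Ginzburg model of the Hirzebruch surface `F_1` without reducible fibres

Let `X = F_1` be the blow-up of the projective plane in a point, a smooth toric Fano surface (del
Pezzo surface of degree `8`) whose fan has the rays `(1, 0), (0, 1), (-1, 1), (0, -1)`. Its Laurent
polynomial `f = x + y + y / x + 1 / y` satisfies

* the period condition: by Givental's theorem the regularised quantum period of the toric Fano
  manifold `X` is `∑_l k! / ∏ l_u!  t ^ k`, the sum over the relations `∑ l_u u = 0`, `l_u ≥ 0`,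
  `∑ l_u = k`, between the rays `u`;
* the toric condition: the faces of the Newton polygon of `f`, the convex hull of the rays, span the
  fan of `X`;
* the Calabi-Yau condition: let `Y` be the surface
  `x² y + x y² + y² z + x z² = λ x y z` in `ℙ² × 𝔸¹` and `w = λ`. It is smooth, `w` is proper, the
  canonical class of `Y` is trivial by adjunction, since the equation has degree `3` in
  `(x : y : z)`, and the open set `x y z ≠ 0` of `Y` is the torus with `w = f`.

All fibres of `w` are irreducible plane cubics, so `k_Y = 0`, but `h^{1,1}(X) - 1 = 1`.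
-/

set_option autoImplicit false

namespace Pool.Agent.Results.MP_02acd8_ag.HirzebruchSurface

open MvPolynomial
open scoped LinearAlgebra.Projectivization

/-- The rays of the fan of `F_1`. -/
def rays : Finset (ℤ × ℤ) := {(1, 0), (0, 1), (-1, 1), (0, -1)}

/-- The primitive Hodge number `h^{1,1}(F_1) - 1`; the Hodge number `h^{1,1}` of a smooth complete
toric surface is the number of rays minus two. -/
def hpr11 : ℤ := ((rays.card : ℤ) - 2) - 1

/-- The Laurent polynomial `f = x + y + y / x + 1 / y`. -/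
noncomputable def f : AddMonoidAlgebra ℂ (ℤ × ℤ) := ∑ u ∈ rays, AddMonoidAlgebra.single u 1

/-- The coefficient of `t ^ k` in the regularised quantum period of the toric Fano manifold with
the given rays (Givental): the sum of `k! / ∏ l_u!` over the relations `∑ l_u u = 0` with `l_u ≥ 0`
and `∑ l_u = k`; the `l_u` are the intersection numbers of a curve class with the torus invariant
divisors. -/
noncomputable def quantumPeriod (k : ℕ) : ℂ :=
  ∑ l ∈ (rays.piAntidiag k).filter (fun l => ∑ u ∈ rays, l u • u = 0),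
    (k.factorial : ℂ) / ∏ u ∈ rays, ((l u).factorial : ℂ)

/-- The value of a Laurent polynomial at a point of the torus. -/
noncomputable def value (p : AddMonoidAlgebra ℂ (ℤ × ℤ)) (t : ℂˣ × ℂˣ) : ℂ :=
  p.coeff.sum fun u c => c * ((t.1 ^ u.1 * t.2 ^ u.2 : ℂˣ) : ℂ)

/-- The equation `x² y + x y² + y² z + x z² - λ x y z` of the surface `Y` in `ℙ² × 𝔸¹`, where
`z = X 0`, `x = X 1`, `y = X 2` and `λ = X 3`. -/
noncomputable def G : MvPolynomial (Fin 4) ℂ :=
  X 1 ^ 2 * X 2 + X 1 * X 2 ^ 2 + X 2 ^ 2 * X 0 + X 1 * X 0 ^ 2 - X 3 * (X 1 * X 2 * X 0)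

/-- The equation of the fibre of `w : Y → 𝔸¹` over `l`. -/
noncomputable def fibre (l : ℂ) : MvPolynomial (Fin 3) ℂ :=
  aeval (![X 0, X 1, X 2, C l] : Fin 4 → MvPolynomial (Fin 3) ℂ) G

/-- The surface `Y` in `ℙ² × 𝔸¹`; `w` is the second projection. -/
def Y : Set (ℙ ℂ (Fin 3 → ℂ) × ℂ) := {q | eval q.1.rep (fibre q.2) = 0}

/-- The embedding of the torus, `(x, y) ↦ ((z : x : y) = (1 : x : y), f(x, y))`. -/
noncomputable def torus (t : ℂˣ × ℂˣ) : ℙ ℂ (Fin 3 → ℂ) × ℂ :=
  (Projectivization.mk ℂ ![1, (t.1 : ℂ), (t.2 : ℂ)] (fun h => one_ne_zero (congrFun h 0)),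
    value f t)

/-- The number of irreducible components of the fibre over `l`. -/
noncomputable def numComponents (l : ℂ) : ℕ := (Ideal.span {fibre l}).minimalPrimes.ncard

/-- `k_Y`: the sum of the numbers of irreducible components minus one. -/
noncomputable def kY : ℤ := ∑ᶠ l : ℂ, ((numComponents l : ℤ) - 1)

theorem fibre_eq (l : ℂ) : fibre l =
    X 1 ^ 2 * X 2 + X 1 * X 2 ^ 2 + X 2 ^ 2 * X 0 + X 1 * X 0 ^ 2 - C l * (X 1 * X 2 * X 0) := by
  simp [fibre, G]

theorem fibre_homogeneous (l : ℂ) : (fibre l).IsHomogeneous 3 := by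
  rw [fibre_eq]
  have h := fun i : Fin 3 => isHomogeneous_X ℂ i
  refine ((((?_ : IsHomogeneous _ 3).add ?_).add ?_).add ?_).sub ?_
  · exact ((h 1).pow 2).mul (h 2)
  · exact (h 1).mul ((h 2).pow 2)
  · exact ((h 2).pow 2).mul (h 0)
  · exact (h 1).mul ((h 0).pow 2)
  · exact (isHomogeneous_C _ l).mul (((h 1).mul (h 2)).mul (h 0))

theorem smooth (v : Fin 4 → ℂ) (hv : (v 0, v 1, v 2) ≠ 0) (_ : eval v G = 0) :
    ∃ i, eval v (pderiv i G) ≠ 0 := by
  by_contra hc
  push Not at hc
  have h0 := hc 0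
  have h1 := hc 1
  have h2 := hc 2
  have h3 := hc 3
  simp [G, pderiv_X] at h0 h1 h2 h3
  apply hv
  rcases h3 with (h3 | h3) | h3
  · rw [h3] at h0 h1
    have h4 : v 2 = 0 := by
      have : v 2 ^ 2 = 0 := by linear_combination h0
      exact pow_eq_zero_iff (two_ne_zero) |>.1 this
    rw [h4] at h1
    have h5 : v 0 = 0 := by
      have : v 0 ^ 2 = 0 := by linear_combination h1
      exact pow_eq_zero_iff (two_ne_zero) |>.1 this
    rw [h3, h4, h5]; rfl
  · rw [h3] at h1 h2
    have h4 : v 0 = 0 := by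
      have : v 0 ^ 2 = 0 := by linear_combination h1
      exact pow_eq_zero_iff (two_ne_zero) |>.1 this
    rw [h4] at h2
    have h5 : v 1 = 0 := by
      have : v 1 ^ 2 = 0 := by linear_combination h2
      exact pow_eq_zero_iff (two_ne_zero) |>.1 this
    rw [h3, h4, h5]; rfl
  · rw [h3] at h1 h2
    have h4 : v 2 * (2 * v 1 + v 2) = 0 := by linear_combination h1
    have h6 : v 1 * (v 1 + 2 * v 2) = 0 := by linear_combination h2
    have h5 : v 1 = 0 ∧ v 2 = 0 := by
      rcases mul_eq_zero.1 h4 with h | h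
      · rw [h] at h6
        refine ⟨?_, h⟩
        have : v 1 ^ 2 = 0 := by linear_combination h6
        exact pow_eq_zero_iff (two_ne_zero) |>.1 this
      · have h7 : v 2 = -(2 * v 1) := by linear_combination h
        rw [h7] at h6
        have h8 : v 1 = 0 := by
          have : v 1 ^ 2 = 0 := by linear_combination (-1 / 3 : ℂ) * h6
          exact pow_eq_zero_iff (two_ne_zero) |>.1 this
        exact ⟨h8, by rw [h7, h8]; ring⟩
    rw [h3, h5.1, h5.2]; rfl

theorem prod_single (s : Finset (ℤ × ℤ)) (l : ℤ × ℤ → ℕ) :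
    ∏ u ∈ s, (AddMonoidAlgebra.single u (1 : ℂ)) ^ l u =
      AddMonoidAlgebra.single (∑ u ∈ s, l u • u) 1 := by
  induction s using Finset.induction_on with
  | empty => simp [AddMonoidAlgebra.one_def]
  | insert a s ha ih =>
    rw [Finset.prod_insert ha, Finset.sum_insert ha, ih, AddMonoidAlgebra.single_pow,
      AddMonoidAlgebra.single_mul_single]
    simp

theorem period (k : ℕ) : (f ^ k).coeff 0 = quantumPeriod k := by
  rw [f, Finset.sum_pow_eq_sum_piAntidiag, quantumPeriod, Finset.sum_filter,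
    AddMonoidAlgebra.coeff_sum, Finsupp.finsetSum_apply]
  apply Finset.sum_congr rfl
  intro l hl
  rw [Finset.mem_piAntidiag] at hl
  rw [prod_single, ← nsmul_eq_mul]
  have h1 : ((Nat.multinomial rays l : ℕ) : ℂ) =
      (k.factorial : ℂ) / ∏ u ∈ rays, ((l u).factorial : ℂ) := by
    have h2 := Nat.multinomial_spec rays l
    rw [hl.1] at h2
    have h3 : (∏ u ∈ rays, ((l u).factorial : ℂ)) ≠ 0 :=
      Finset.prod_ne_zero_iff.2 fun u _ => by exact_mod_cast (Nat.factorial_pos _).ne'
    rw [eq_div_iff h3, mul_comm]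
    exact_mod_cast h2
  rw [← h1, AddMonoidAlgebra.coeff_smul_apply, AddMonoidAlgebra.coeff_single, Finsupp.single_apply]
  split_ifs <;> simp

theorem not_mem_span_X {p : MvPolynomial (Fin 2) ℂ} (v : Fin 2 → ℂ) (hv : v 1 = 0)
    (hp : eval v p ≠ 0) : p ∉ Ideal.span {(X 1 : MvPolynomial (Fin 2) ℂ)} := by
  rw [Ideal.mem_span_singleton]
  rintro ⟨q, rfl⟩
  apply hp
  simp [hv]

theorem irreducible_fibre (l : ℂ) : Irreducible (fibre l) := by
  rw [← MulEquiv.irreducible_iff (finSuccEquiv ℂ 2)]
  have e : finSuccEquiv ℂ 2 (fibre l) =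
      Polynomial.C (X 0) * Polynomial.X ^ 2 +
      Polynomial.C (X 1 ^ 2 - C l * (X 0 * X 1)) * Polynomial.X +
      Polynomial.C (X 0 ^ 2 * X 1 + X 0 * X 1 ^ 2) := by
    rw [fibre_eq]
    have h1 : (X 1 : MvPolynomial (Fin 3) ℂ) = X (Fin.succ 0) := rfl
    have h2 : (X 2 : MvPolynomial (Fin 3) ℂ) = X (Fin.succ 1) := rfl
    rw [h1, h2]
    simp only [map_add, map_sub, map_mul, map_pow, finSuccEquiv_X_zero, finSuccEquiv_X_succ]
    have h3 : finSuccEquiv ℂ 2 (C l) = Polynomial.C (C l) := by
      simp [finSuccEquiv_apply]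
    rw [h3]
    ring
  rw [e]
  set A : MvPolynomial (Fin 2) ℂ := X 0 with hA
  set B : MvPolynomial (Fin 2) ℂ := X 1 ^ 2 - C l * (X 0 * X 1) with hB
  set D : MvPolynomial (Fin 2) ℂ := X 0 ^ 2 * X 1 + X 0 * X 1 ^ 2 with hD
  have hA0 : A ≠ 0 := X_ne_zero 0
  have hdeg : (Polynomial.C A * Polynomial.X ^ 2 + Polynomial.C B * Polynomial.X +
      Polynomial.C D).degree = 2 := Polynomial.degree_quadratic hA0
  have hlead : (Polynomial.C A * Polynomial.X ^ 2 + Polynomial.C B * Polynomial.X +
      Polynomial.C D).leadingCoeff = A := Polynomial.leadingCoeff_quadratic hA0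
  have hc0 : (Polynomial.C A * Polynomial.X ^ 2 + Polynomial.C B * Polynomial.X +
      Polynomial.C D).coeff 0 = D := by simp
  have hc1 : (Polynomial.C A * Polynomial.X ^ 2 + Polynomial.C B * Polynomial.X +
      Polynomial.C D).coeff 1 = B := by simp
  have hc2 : (Polynomial.C A * Polynomial.X ^ 2 + Polynomial.C B * Polynomial.X +
      Polynomial.C D).coeff 2 = A := by simp
  have hBmem : B ∈ Ideal.span {(X 1 : MvPolynomial (Fin 2) ℂ)} := by
    rw [Ideal.mem_span_singleton]
    exact ⟨X 1 - C l * X 0, by rw [hB]; ring⟩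
  have hDmem : D ∈ Ideal.span {(X 1 : MvPolynomial (Fin 2) ℂ)} := by
    rw [Ideal.mem_span_singleton]
    exact ⟨X 0 ^ 2 + X 0 * X 1, by rw [hD]; ring⟩
  refine Polynomial.irreducible_of_eisenstein_criterion
    (P := Ideal.span {(X 1 : MvPolynomial (Fin 2) ℂ)}) ?_ ?_ ?_ ?_ ?_ ?_
  · rw [Ideal.span_singleton_prime (X_ne_zero 1)]
    exact X_prime
  · rw [hlead]
    exact not_mem_span_X ![1, 0] rfl (by simp [hA])
  · intro n hn
    rw [hdeg] at hn
    have hn' : n < 2 := by exact_mod_cast hn
    interval_cases n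
    · rw [hc0]; exact hDmem
    · rw [hc1]; exact hBmem
  · rw [hdeg]; norm_num
  · rw [hc0, Ideal.span_singleton_pow, Ideal.mem_span_singleton]
    rintro ⟨q, hq⟩
    have h1 : (X 1 : MvPolynomial (Fin 2) ℂ) * (X 0 ^ 2 + X 0 * X 1) = X 1 * (X 1 * q) := by
      rw [hD] at hq
      linear_combination hq
    have h2 := mul_left_cancel₀ (X_ne_zero 1) h1
    have h3 := congrArg (eval ![1, 0]) h2
    simp at h3
  · intro r hr
    rw [Polynomial.C_dvd_iff_dvd_coeff] at hr
    have h2 : r ∣ X 0 := by simpa only [hc2] using hr 2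
    have h1 : r ∣ B := by simpa only [hc1] using hr 1
    have h3 : r ∣ X 1 ^ 2 := by
      have := dvd_add h1 (h2.mul_right (C l * X 1))
      have e2 : B + X 0 * (C l * X 1) = X 1 ^ 2 := by rw [hB]; ring
      rwa [e2] at this
    rcases (X_prime (i := (0 : Fin 2)) (R := ℂ)).irreducible.dvd_iff.1 h2 with h | h
    · exact h
    · exfalso
      have h4 : (X 0 : MvPolynomial (Fin 2) ℂ) ∣ X 1 ^ 2 := (h.dvd).trans h3
      obtain ⟨q, hq⟩ := h4
      have h5 := congrArg (eval ![0, 1]) hq
      simp at h5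

theorem numComponents_eq (l : ℂ) : numComponents l = 1 := by
  have hp : (Ideal.span {fibre l}).IsPrime :=
    (Ideal.span_singleton_prime (irreducible_fibre l).ne_zero).2 (irreducible_fibre l).prime
  rw [numComponents, Ideal.minimalPrimes_eq_subsingleton_self, Set.ncard_singleton]

theorem hpr_ne : hpr11 ≠ kY := by
  have h1 : hpr11 = 1 := by
    have : rays.card = 4 := by decide
    rw [hpr11, this]; norm_num
  have h2 : kY = 0 := by
    simp [kY, numComponents_eq]
  rw [h1, h2]
  exact one_ne_zero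

theorem value_f (t : ℂˣ × ℂˣ) :
    value f t = (t.1 : ℂ) + (t.2 : ℂ) + (t.2 : ℂ) / (t.1 : ℂ) + 1 / (t.2 : ℂ) := by
  have hf : f.coeff = Finsupp.single (1, 0) 1 + (Finsupp.single (0, 1) 1 +
      (Finsupp.single (-1, 1) 1 + Finsupp.single (0, -1) 1)) := by
    have : f = AddMonoidAlgebra.single (1, 0) 1 + (AddMonoidAlgebra.single (0, 1) 1 +
        (AddMonoidAlgebra.single (-1, 1) 1 + AddMonoidAlgebra.single (0, -1) 1)) := by
      rw [f, rays, Finset.sum_insert (by decide), Finset.sum_insert (by decide),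
        Finset.sum_insert (by decide), Finset.sum_singleton]
    rw [this]
    rfl
  rw [value, hf]
  rw [Finsupp.sum_add_index' (by simp) (by intros; ring), Finsupp.sum_add_index' (by simp)
    (by intros; ring), Finsupp.sum_add_index' (by simp) (by intros; ring),
    Finsupp.sum_single_index (by simp), Finsupp.sum_single_index (by simp),
    Finsupp.sum_single_index (by simp), Finsupp.sum_single_index (by simp)]
  simp
  ring

theorem eval_fibre (v : Fin 3 → ℂ) (l : ℂ) : eval v (fibre l) =
    v 1 ^ 2 * v 2 + v 1 * v 2 ^ 2 + v 2 ^ 2 * v 0 + v 1 * v 0 ^ 2 - l * (v 1 * v 2 * v 0) := by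
  simp [fibre_eq]

theorem torus_injective : Function.Injective torus := by
  rintro ⟨a, b⟩ ⟨a', b'⟩ h
  have h1 := (Projectivization.mk_eq_mk_iff' ℂ _ _ _ _).1 (congrArg Prod.fst h)
  obtain ⟨c, hc⟩ := h1
  have h2 := congrFun hc 0
  have h3 := congrFun hc 1
  have h4 := congrFun hc 2
  simp at h2 h3 h4
  rw [h2, one_mul] at h3 h4
  rw [Units.ext h3, Units.ext h4]

theorem torus_range : Set.range torus = {q ∈ Y | ∀ i, q.1.rep i ≠ 0} := by
  ext ⟨p, l⟩
  constructor
  · rintro ⟨⟨a, b⟩, h⟩
    have hp : Projectivization.mk ℂ ![1, (a : ℂ), (b : ℂ)]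
        (fun h => one_ne_zero (congrFun h 0)) = p := congrArg Prod.fst h
    have hl : value f (a, b) = l := congrArg Prod.snd h
    rw [value_f] at hl
    obtain ⟨c, hc⟩ := Projectivization.exists_smul_eq_mk_rep ℂ ![1, (a : ℂ), (b : ℂ)]
        (fun h => one_ne_zero (congrFun h 0))
    rw [hp] at hc
    have e0 : p.rep 0 = c := by rw [← hc]; simp [Units.smul_def]
    have e1 : p.rep 1 = c * a := by rw [← hc]; simp [Units.smul_def]
    have e2 : p.rep 2 = c * b := by rw [← hc]; simp [Units.smul_def]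
    refine ⟨?_, ?_⟩
    · change eval p.rep (fibre l) = 0
      rw [eval_fibre, e0, e1, e2, ← hl]
      field_simp
      ring
    · intro i
      fin_cases i
      · simp [e0]
      · simp [e1]
      · simp [e2]
  · rintro ⟨h, hne⟩
    have h0 := hne 0
    have h1 := hne 1
    have h2 := hne 2
    change eval p.rep (fibre l) = 0 at h
    rw [eval_fibre] at h
    simp only at h0 h1 h2
    refine ⟨(Units.mk0 (p.rep 1 / p.rep 0) (div_ne_zero h1 h0),
      Units.mk0 (p.rep 2 / p.rep 0) (div_ne_zero h2 h0)), ?_⟩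
    refine Prod.ext ?_ ?_
    · conv_rhs => rw [← Projectivization.mk_rep p]
      refine (Projectivization.mk_eq_mk_iff' ℂ _ _ _ _).2 ⟨(p.rep 0)⁻¹, ?_⟩
      funext i
      fin_cases i
      · simp [h0]
      · simp [div_eq_inv_mul]
      · simp [div_eq_inv_mul]
    · change value f _ = l
      rw [value_f]
      simp only [Units.val_mk0]
      field_simp
      linear_combination h

/-- For the Hirzebruch surface `F_1` and its toric Landau-Ginzburg model `f = x + y + y/x + 1/y`: the
period condition; the surface `Y` in `ℙ² × 𝔸¹` is given by a form of degree `3`, is smooth, and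
contains the torus as the open set where no coordinate vanishes, with `w = f`; all fibres are
irreducible; so `k_Y = 0`, but the primitive Hodge number is `1`. -/
theorem result :
    (∀ k : ℕ, (f ^ k).coeff 0 = quantumPeriod k) ∧
    (∀ l : ℂ, (fibre l).IsHomogeneous 3) ∧
    (∀ v : Fin 4 → ℂ, (v 0, v 1, v 2) ≠ 0 → eval v G = 0 → ∃ i, eval v (pderiv i G) ≠ 0) ∧
    Function.Injective torus ∧
    Set.range torus = {q ∈ Y | ∀ i, q.1.rep i ≠ 0} ∧
    (∀ l : ℂ, Irreducible (fibre l)) ∧
    kY = 0 ∧ hpr11 = 1 ∧ hpr11 ≠ kY := by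
  refine ⟨period, fibre_homogeneous, smooth, torus_injective, torus_range, irreducible_fibre,
    ?_, ?_, hpr_ne⟩
  · simp [kY, numComponents_eq]
  · have : rays.card = 4 := by decide
    rw [hpr11, this]; norm_num

end Pool.Agent.Results.MP_02acd8_ag.HirzebruchSurface
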